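import Pool.Agent.Results.MP_4ba7fc_nt.FixedBase
import Pool.Agent.U513.AP.Sparse

/-!
# Cohn's equation `(a ^ n - 1)(b ^ n - 1) = x ^ 2`: all bases `b` near integral polynomials at simultaneous approximations

The starting file bounds, for a fixed `a`, the number of the `b ≤ N` for which the equation is solvable. Here: for all points `α`
outside of a set of small Hausdorff dimension, the equation has NO solution, with any exponent `n ≥ 1`, for ANY of these `a` and ALL
`b ≥ 2`, `b ≠ a`, near integral polynomials at the approximations of `α` with a large denominator.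
-/

set_option autoImplicit false

open Finset

namespace Pool.Agent.Results.MP_4ba7fc_nt.Approximations

open Pool.Agent.U513.AP
open Pool.Agent.Results.MP_4ba7fc_nt.FixedBase (Solvable)

/-- There is `0 < δ ≤ 1` such that the properties `b = 1`, or `b = a`, or the equation for `(a, b)` has no solution, for the
`a ≥ 2` not of the form `(2 e ^ 2) ^ (2 ^ r)`, `r ≥ 2`, hold at approximations outside of exceptional sets of exponent `1 - δ`. -/
theorem result : ∃ δ : ℝ, 0 < δ ∧ δ ≤ 1 ∧
    AtApproximations (ι := {a : ℕ // 2 ≤ a ∧ ¬ ∃ e r : ℕ, 2 ≤ r ∧ a = (2 * e ^ 2) ^ (2 ^ r)}) (1 - δ)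
      (fun a b => 2 ≤ b → b ≠ a.1 → ¬ Solvable a.1 b) := by
  classical
  obtain ⟨δ, hδ, h⟩ := FixedBase.result
  refine ⟨min δ 1, lt_min hδ one_pos, min_le_right _ _, sparse_law_pow (min_le_right _ _) _ fun a => ?_⟩
  obtain ⟨N₀, h0⟩ := h a.1 a.2.1 a.2.2
  refine ⟨1, max N₀ 1, fun X hX => ?_⟩
  have hX1 : (1 : ℝ) ≤ X := by exact_mod_cast (le_trans (le_max_right _ _) hX)
  have hfin : {b : ℕ | 2 ≤ b ∧ b ≠ a.1 ∧ b ≤ X ∧ Solvable a.1 b}.Finite :=
    (Set.finite_Iic X).subset fun n hn => hn.2.2.1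
  refine (Nat.cast_le.2 (Set.ncard_le_ncard ?_ hfin)).trans ((h0 X (le_trans (le_max_left _ _) hX)).trans ?_)
  · rintro n ⟨h1, h2, h3⟩
    push Not at h3
    exact ⟨h3.1, h3.2.1, h2, h3.2.2⟩
  · rw [one_mul]
    exact Real.rpow_le_rpow_of_exponent_le hX1 (by linarith [min_le_left δ 1])

end Pool.Agent.Results.MP_4ba7fc_nt.Approximations
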